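import Mathlib

/-!
Helper file for MP_0da599_gt (entire saddle graphs): a priori estimate on a square.
`Dat` packs the partial derivatives up to order three of a function of two real variables,
`heinz` bounds the integral of minus the Hessian determinant, `Flux` packs the curvature data
and `Flux.estimate` is the estimate.
-/

open MeasureTheory Set

namespace Pool.Agent.Helper49.Mil

/-- the closed square -/
def sq (R : ℝ) : Set (ℝ × ℝ) := Icc (-R) R ×ˢ Icc (-R) R

lemma isCompact_sq (R : ℝ) : IsCompact (sq R) := isCompact_Icc.prod isCompact_Icc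

lemma measurableSet_sq (R : ℝ) : MeasurableSet (sq R) := measurableSet_Icc.prod measurableSet_Icc

lemma integrableOn_sq {R : ℝ} {A : ℝ × ℝ → ℝ} (hA : ContinuousOn A (sq R)) :
    IntegrableOn A (sq R) := hA.integrableOn_compact (isCompact_sq R)

lemma int_py {R : ℝ} (hR : 0 < R) {F A : ℝ × ℝ → ℝ} (hA : ContinuousOn A (sq R))
    (hF : ∀ z ∈ sq R, HasDerivAt (fun b => F (z.1, b)) (A z) z.2)
    (h0 : ∀ x ∈ Icc (-R) R, F (x, R) = 0) (h1 : ∀ x ∈ Icc (-R) R, F (x, -R) = 0) :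
    ∫ z in sq R, A z = 0 := by
  have hle : -R ≤ R := by linarith
  have hint : IntegrableOn A (Icc (-R) R ×ˢ Icc (-R) R) (volume.prod volume) :=
    integrableOn_sq hA
  have h := setIntegral_prod (μ := (volume : Measure ℝ)) (ν := (volume : Measure ℝ)) A
    (s := Icc (-R) R) (t := Icc (-R) R) hint
  have h2 : ∫ z in sq R, A z = ∫ x in Icc (-R) R, ∫ y in Icc (-R) R, A (x, y) := h
  rw [h2]
  have h3 : ∀ x ∈ Icc (-R) R, ∫ y in Icc (-R) R, A (x, y) = 0 := by
    intro x hx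
    rw [integral_Icc_eq_integral_Ioc, ← intervalIntegral.integral_of_le hle]
    have hc : ContinuousOn (fun y => A (x, y)) (Icc (-R) R) := by
      refine hA.comp (by fun_prop) ?_
      intro y hy
      exact ⟨hx, hy⟩
    have := intervalIntegral.integral_eq_sub_of_hasDerivAt (a := -R) (b := R)
      (f := fun y => F (x, y)) (f' := fun y => A (x, y)) (by
        intro y hy
        rw [uIcc_of_le hle] at hy
        exact hF (x, y) ⟨hx, hy⟩) (by
        apply ContinuousOn.intervalIntegrable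
        rwa [uIcc_of_le hle])
    rw [this, h0 x hx, h1 x hx, sub_zero]
  rw [setIntegral_congr_fun measurableSet_Icc h3]
  simp

lemma int_swap {R : ℝ} (A : ℝ × ℝ → ℝ) :
    ∫ z in sq R, A z.swap = ∫ z in sq R, A z := by
  exact setIntegral_prod_swap (μ := (volume : Measure ℝ)) (ν := (volume : Measure ℝ))
    (Icc (-R) R) (Icc (-R) R) A

lemma int_px {R : ℝ} (hR : 0 < R) {F A : ℝ × ℝ → ℝ} (hA : ContinuousOn A (sq R))
    (hF : ∀ z ∈ sq R, HasDerivAt (fun a => F (a, z.2)) (A z) z.1)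
    (h0 : ∀ y ∈ Icc (-R) R, F (R, y) = 0) (h1 : ∀ y ∈ Icc (-R) R, F (-R, y) = 0) :
    ∫ z in sq R, A z = 0 := by
  rw [← int_swap]
  have hswap : MapsTo Prod.swap (sq R) (sq R) := by
    rintro ⟨x, y⟩ ⟨hx, hy⟩
    exact ⟨hy, hx⟩
  refine int_py hR (F := fun z => F z.swap) (A := fun z => A z.swap) ?_ ?_ ?_ ?_
  · exact hA.comp continuous_swap.continuousOn hswap
  · rintro ⟨x, y⟩ ⟨hx, hy⟩
    exact hF (y, x) ⟨hy, hx⟩
  · intro x hx
    exact h0 x hx
  · intro x hx
    exact h1 x hx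

/-- cutoff -/
noncomputable def ca (R x : ℝ) : ℝ := (1 - (x / R) ^ 2) ^ 2
noncomputable def ca1 (R x : ℝ) : ℝ := -4 * (x / R) * (1 - (x / R) ^ 2) / R
noncomputable def ca2 (R x : ℝ) : ℝ := (-4 + 12 * (x / R) ^ 2) / R ^ 2

lemma hasDerivAt_ca {R : ℝ} (hR : 0 < R) (x : ℝ) : HasDerivAt (ca R) (ca1 R x) x := by
  unfold ca ca1
  have h1 : HasDerivAt (fun x : ℝ => x / R) (1 / R) x := (hasDerivAt_id x).div_const R
  have h2 := ((h1.pow 2).const_sub 1).pow 2
  refine h2.congr_deriv ?_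
  simp only [Pi.pow_apply]
  push_cast
  field_simp
  ring

lemma hasDerivAt_ca1 {R : ℝ} (hR : 0 < R) (x : ℝ) : HasDerivAt (ca1 R) (ca2 R x) x := by
  unfold ca1 ca2
  have h1 : HasDerivAt (fun x : ℝ => x / R) (1 / R) x := (hasDerivAt_id x).div_const R
  have h2 := ((h1.const_mul (-4)).mul ((h1.pow 2).const_sub 1)).div_const R
  refine h2.congr_deriv ?_
  simp only [Pi.pow_apply]
  push_cast
  field_simp
  ring

lemma div_mem {R : ℝ} (hR : 0 < R) {x : ℝ} (hx : x ∈ Icc (-R) R) : (x / R) ^ 2 ≤ 1 := by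
  have h : |x / R| ≤ 1 := by
    rw [abs_div, abs_of_pos hR, div_le_one hR]
    exact abs_le.2 hx
  calc (x / R) ^ 2 = |x / R| ^ 2 := (sq_abs _).symm
    _ ≤ 1 := by
      have := abs_nonneg (x / R)
      nlinarith

lemma ca_nonneg (R x : ℝ) : 0 ≤ ca R x := by unfold ca; positivity

lemma ca_le {R : ℝ} (hR : 0 < R) {x : ℝ} (hx : x ∈ Icc (-R) R) : ca R x ≤ 1 := by
  have h := div_mem hR hx
  have h0 : 0 ≤ (x / R) ^ 2 := by positivity
  unfold ca
  nlinarith

lemma ca1_le {R : ℝ} (hR : 0 < R) {x : ℝ} (hx : x ∈ Icc (-R) R) : |ca1 R x| ≤ 4 / R := by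
  have h := div_mem hR hx
  have h0 : 0 ≤ (x / R) ^ 2 := by positivity
  have h' : |x / R| ≤ 1 := by
    rw [← sq_abs] at h
    have := abs_nonneg (x / R)
    nlinarith
  unfold ca1
  rw [abs_div, abs_of_pos hR]
  apply div_le_div_of_nonneg_right _ hR.le
  rw [abs_mul, abs_mul]
  have h3 : |1 - (x / R) ^ 2| ≤ 1 := by
    rw [abs_le]; constructor <;> linarith
  have h4 : |(-4 : ℝ)| = 4 := by norm_num
  rw [h4]
  have := abs_nonneg (x / R)
  have := abs_nonneg (1 - (x / R) ^ 2)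
  nlinarith [mul_le_mul h' h3 (abs_nonneg _) zero_le_one]

lemma ca2_le {R : ℝ} (hR : 0 < R) {x : ℝ} (hx : x ∈ Icc (-R) R) : |ca2 R x| ≤ 8 / R ^ 2 := by
  have h := div_mem hR hx
  have h0 : 0 ≤ (x / R) ^ 2 := by positivity
  unfold ca2
  rw [abs_div, abs_of_pos (by positivity : (0 : ℝ) < R ^ 2)]
  apply div_le_div_of_nonneg_right _ (by positivity)
  rw [abs_le]; constructor <;> linarith

lemma ca_right {R : ℝ} (hR : 0 < R) : ca R R = 0 := by
  unfold ca; rw [div_self hR.ne']; norm_num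
lemma ca_left {R : ℝ} (hR : 0 < R) : ca R (-R) = 0 := by
  unfold ca; rw [neg_div, div_self hR.ne']; norm_num
lemma ca1_right {R : ℝ} (hR : 0 < R) : ca1 R R = 0 := by
  unfold ca1; rw [div_self hR.ne']; norm_num
lemma ca1_left {R : ℝ} (hR : 0 < R) : ca1 R (-R) = 0 := by
  unfold ca1; rw [neg_div, div_self hR.ne']; norm_num

lemma continuous_ca {R : ℝ} : Continuous (ca R) := by unfold ca; fun_prop
lemma continuous_ca1 {R : ℝ} : Continuous (ca1 R) := by unfold ca1; fun_prop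
lemma continuous_ca2 {R : ℝ} : Continuous (ca2 R) := by unfold ca2; fun_prop

/-- the integral of the cutoff -/
lemma int_ca {R : ℝ} (hR : 0 < R) : ∫ x in Icc (-R) R, ca R x = 16 * R / 15 := by
  have hle : -R ≤ R := by linarith
  rw [integral_Icc_eq_integral_Ioc, ← intervalIntegral.integral_of_le hle]
  have h : ∀ x ∈ uIcc (-R) R, HasDerivAt
      (fun x : ℝ => x - 2 / 3 * x ^ 3 / R ^ 2 + x ^ 5 / (5 * R ^ 4)) (ca R x) x := by
    intro x _
    have h1 := (((hasDerivAt_id x).sub (((hasDerivAt_pow 3 x).const_mul (2 / 3)).div_const (R ^ 2))).add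
      ((hasDerivAt_pow 5 x).div_const (5 * R ^ 4)))
    refine h1.congr_deriv ?_
    unfold ca
    field_simp
    ring
  rw [intervalIntegral.integral_eq_sub_of_hasDerivAt h (continuous_ca.intervalIntegrable _ _)]
  field_simp
  ring

noncomputable def cz (R : ℝ) (z : ℝ × ℝ) : ℝ := ca R z.1 * ca R z.2

lemma int_cz {R : ℝ} (hR : 0 < R) : R ^ 2 ≤ ∫ z in sq R, cz R z := by
  have h : ∫ z in sq R, cz R z = (∫ x in Icc (-R) R, ca R x) * ∫ y in Icc (-R) R, ca R y :=
    setIntegral_prod_mul (μ := (volume : Measure ℝ)) (ν := (volume : Measure ℝ))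
      (ca R) (ca R) (Icc (-R) R) (Icc (-R) R)
  rw [h, int_ca hR]
  nlinarith [sq_nonneg R]

lemma vol_sq {R : ℝ} (hR : 0 < R) (c : ℝ) : ∫ _z in sq R, c = 4 * R ^ 2 * c := by
  have h1 : ∫ _x in Icc (-R) R, (1 : ℝ) = 2 * R := by
    simp [hR.le]
    ring
  have h : ∫ z in sq R, (fun _ : ℝ => c) z.1 * (fun _ : ℝ => (1 : ℝ)) z.2
      = (∫ _x in Icc (-R) R, c) * ∫ _y in Icc (-R) R, (1 : ℝ) :=
    setIntegral_prod_mul (μ := (volume : Measure ℝ)) (ν := (volume : Measure ℝ))
      (fun _ => c) (fun _ => (1 : ℝ)) (Icc (-R) R) (Icc (-R) R)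
  have h2 : ∫ _x in Icc (-R) R, c = 2 * R * c := by
    have := integral_mul_const (μ := volume.restrict (Icc (-R) R)) c (fun _ : ℝ => (1 : ℝ))
    rw [h1] at this
    rw [← this]; simp
  rw [h1, h2] at h
  simp only [mul_one] at h
  rw [h]; ring



/-- first, second and third partial derivatives of a function of two variables, with their
differentiation rules -/
structure Dat where
  p : ℝ × ℝ → ℝ
  q : ℝ × ℝ → ℝ
  r : ℝ × ℝ → ℝ
  s : ℝ × ℝ → ℝ
  t : ℝ × ℝ → ℝ
  rx : ℝ × ℝ → ℝ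
  ry : ℝ × ℝ → ℝ
  tx : ℝ × ℝ → ℝ
  ty : ℝ × ℝ → ℝ
  cp : Continuous p
  cq : Continuous q
  cr : Continuous r
  cs : Continuous s
  ct : Continuous t
  crx : Continuous rx
  cry : Continuous ry
  ctx : Continuous tx
  cty : Continuous ty
  pdx : ∀ z, HasDerivAt (fun a => p (a, z.2)) (r z) z.1
  pdy : ∀ z, HasDerivAt (fun b => p (z.1, b)) (s z) z.2
  qdx : ∀ z, HasDerivAt (fun a => q (a, z.2)) (s z) z.1
  qdy : ∀ z, HasDerivAt (fun b => q (z.1, b)) (t z) z.2
  rdx : ∀ z, HasDerivAt (fun a => r (a, z.2)) (rx z) z.1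
  rdy : ∀ z, HasDerivAt (fun b => r (z.1, b)) (ry z) z.2
  sdx : ∀ z, HasDerivAt (fun a => s (a, z.2)) (ry z) z.1
  sdy : ∀ z, HasDerivAt (fun b => s (z.1, b)) (tx z) z.2
  tdx : ∀ z, HasDerivAt (fun a => t (a, z.2)) (tx z) z.1
  tdy : ∀ z, HasDerivAt (fun b => t (z.1, b)) (ty z) z.2

/-- minus the function -/
def Dat.neg (d : Dat) : Dat where
  p := fun z => -d.p z
  q := fun z => -d.q z
  r := fun z => -d.r z
  s := fun z => -d.s z
  t := fun z => -d.t z
  rx := fun z => -d.rx z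
  ry := fun z => -d.ry z
  tx := fun z => -d.tx z
  ty := fun z => -d.ty z
  cp := d.cp.neg
  cq := d.cq.neg
  cr := d.cr.neg
  cs := d.cs.neg
  ct := d.ct.neg
  crx := d.crx.neg
  cry := d.cry.neg
  ctx := d.ctx.neg
  cty := d.cty.neg
  pdx := fun z => (d.pdx z).neg
  pdy := fun z => (d.pdy z).neg
  qdx := fun z => (d.qdx z).neg
  qdy := fun z => (d.qdy z).neg
  rdx := fun z => (d.rdx z).neg
  rdy := fun z => (d.rdy z).neg
  sdx := fun z => (d.sdx z).neg
  sdy := fun z => (d.sdy z).neg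
  tdx := fun z => (d.tdx z).neg
  tdy := fun z => (d.tdy z).neg

lemma heinz_identity (d : Dat) {R : ℝ} (hR : 0 < R) :
    ∫ z in sq R, cz R z * (d.s z ^ 2 - d.r z * d.t z) =
      ∫ z in sq R, (1 / 2 * (ca R z.1 * ca2 R z.2 * d.p z ^ 2) +
        1 / 2 * (ca2 R z.1 * ca R z.2 * d.q z ^ 2) - ca1 R z.1 * ca1 R z.2 * (d.p z * d.q z)) := by
  have cp := d.cp
  have cq := d.cq
  have cr := d.cr
  have cs := d.cs
  have ct := d.ct
  have ctx := d.ctx
  have c0 : Continuous (ca R) := continuous_ca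
  have c1 : Continuous (ca1 R) := continuous_ca1
  have c2 : Continuous (ca2 R) := continuous_ca2
  set A2 : ℝ × ℝ → ℝ := fun z => ca R z.1 * ca R z.2 * (d.s z ^ 2 + d.p z * d.tx z)
    - 1 / 2 * (ca R z.1 * ca2 R z.2 * d.p z ^ 2) + ca1 R z.1 * ca1 R z.2 * (d.p z * d.q z)
    + ca1 R z.1 * ca R z.2 * (d.s z * d.q z + d.p z * d.t z) with hA2
  set A1 : ℝ × ℝ → ℝ := fun z => -(ca1 R z.1 * ca R z.2 * (d.p z * d.t z))
    - ca R z.1 * ca R z.2 * (d.r z * d.t z + d.p z * d.tx z)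
    - 1 / 2 * (ca2 R z.1 * ca R z.2 * d.q z ^ 2) - ca1 R z.1 * ca R z.2 * (d.q z * d.s z) with hA1
  have cA2 : Continuous A2 := by
    rw [hA2]; fun_prop
  have cA1 : Continuous A1 := by
    rw [hA1]; fun_prop
  have h2 : ∫ z in sq R, A2 z = 0 := by
    refine int_py hR (F := fun z => ca R z.1 * ca R z.2 * (d.p z * d.s z)
      - 1 / 2 * (ca R z.1 * ca1 R z.2 * d.p z ^ 2) + ca1 R z.1 * ca R z.2 * (d.p z * d.q z))
      cA2.continuousOn ?_ ?_ ?_
    · intro z _
      have e1 := ((hasDerivAt_ca hR z.2).const_mul (ca R z.1)).mul ((d.pdy z).mul (d.sdy z))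
      have e2 := (((hasDerivAt_ca1 hR z.2).const_mul (ca R z.1)).mul ((d.pdy z).pow 2)).const_mul (1 / 2)
      have e3 := ((hasDerivAt_ca hR z.2).const_mul (ca1 R z.1)).mul ((d.pdy z).mul (d.qdy z))
      refine ((e1.sub e2).add e3).congr_deriv ?_
      rw [hA2]
      simp only [Pi.mul_apply, Pi.pow_apply, Prod.mk.eta]
      push_cast
      ring
    · intro x _
      simp only [ca_right hR, ca1_right hR]; ring
    · intro x _
      simp only [ca_left hR, ca1_left hR]; ring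
  have h1 : ∫ z in sq R, A1 z = 0 := by
    refine int_px hR (F := fun z => -(ca R z.1 * ca R z.2 * (d.p z * d.t z))
      - 1 / 2 * (ca1 R z.1 * ca R z.2 * d.q z ^ 2))
      cA1.continuousOn ?_ ?_ ?_
    · intro z _
      have e1 := (((hasDerivAt_ca hR z.1).mul_const (ca R z.2)).mul ((d.pdx z).mul (d.tdx z))).neg
      have e2 := (((hasDerivAt_ca1 hR z.1).mul_const (ca R z.2)).mul ((d.qdx z).pow 2)).const_mul (1 / 2)
      refine (e1.sub e2).congr_deriv ?_
      rw [hA1]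
      simp only [Pi.mul_apply, Pi.pow_apply, Prod.mk.eta]
      push_cast
      ring
    · intro x _
      simp only [ca_right hR, ca1_right hR]; ring
    · intro x _
      simp only [ca_left hR, ca1_left hR]; ring
  have hi1 : IntegrableOn A1 (sq R) := integrableOn_sq cA1.continuousOn
  have hi2 : IntegrableOn A2 (sq R) := integrableOn_sq cA2.continuousOn
  have hi3 : IntegrableOn (fun z : ℝ × ℝ => (1 / 2 * (ca R z.1 * ca2 R z.2 * d.p z ^ 2) +
        1 / 2 * (ca2 R z.1 * ca R z.2 * d.q z ^ 2) - ca1 R z.1 * ca1 R z.2 * (d.p z * d.q z)))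
        (sq R) := by
    apply integrableOn_sq
    apply Continuous.continuousOn
    fun_prop
  have hs : ∫ z in sq R, (A1 z + A2 z) = 0 := by
    rw [integral_add hi1 hi2, h1, h2, add_zero]
  have hs2 : ∫ z in sq R, ((A1 z + A2 z) + (1 / 2 * (ca R z.1 * ca2 R z.2 * d.p z ^ 2) +
        1 / 2 * (ca2 R z.1 * ca R z.2 * d.q z ^ 2) - ca1 R z.1 * ca1 R z.2 * (d.p z * d.q z)))
      = ∫ z in sq R, (1 / 2 * (ca R z.1 * ca2 R z.2 * d.p z ^ 2) +
        1 / 2 * (ca2 R z.1 * ca R z.2 * d.q z ^ 2) - ca1 R z.1 * ca1 R z.2 * (d.p z * d.q z)) := by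
    have h12 : IntegrableOn (fun z => A1 z + A2 z) (sq R) := hi1.add hi2
    rw [integral_add h12 hi3, hs, zero_add]
  rw [← hs2]
  congr 1
  ext z
  rw [hA1, hA2]
  simp only [cz]
  ring

lemma heinz (d : Dat) {R M : ℝ} (hR : 0 < R) (hM : 0 ≤ M)
    (hp : ∀ z ∈ sq R, |d.p z| ≤ M) (hq : ∀ z ∈ sq R, |d.q z| ≤ M) :
    ∫ z in sq R, cz R z * (d.s z ^ 2 - d.r z * d.t z) ≤ 96 * M ^ 2 := by
  rw [heinz_identity d hR]
  have cp := d.cp
  have cq := d.cq
  have c0 : Continuous (ca R) := continuous_ca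
  have c1 : Continuous (ca1 R) := continuous_ca1
  have c2 : Continuous (ca2 R) := continuous_ca2
  have hv := vol_sq hR (24 * M ^ 2 / R ^ 2)
  have he : 4 * R ^ 2 * (24 * M ^ 2 / R ^ 2) = 96 * M ^ 2 := by field_simp; ring
  rw [← he, ← hv]
  refine setIntegral_mono_on ?_ ?_ (measurableSet_sq R) ?_
  · apply integrableOn_sq
    apply Continuous.continuousOn
    fun_prop
  · apply integrableOn_sq
    exact continuous_const.continuousOn
  · rintro z hz
    have hp2 : d.p z ^ 2 ≤ M ^ 2 := by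
      rw [← sq_abs]; exact pow_le_pow_left₀ (abs_nonneg _) (hp z hz) 2
    have hq2 : d.q z ^ 2 ≤ M ^ 2 := by
      rw [← sq_abs]; exact pow_le_pow_left₀ (abs_nonneg _) (hq z hz) 2
    have hpq : |d.p z * d.q z| ≤ M ^ 2 := by
      rw [abs_mul, pow_two]; exact mul_le_mul (hp z hz) (hq z hz) (abs_nonneg _) hM
    have ha := ca_le hR hz.1
    have hb := ca_le hR hz.2
    have ha0 := ca_nonneg R z.1
    have hb0 := ca_nonneg R z.2
    have ha1 := ca1_le hR hz.1
    have hb1 := ca1_le hR hz.2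
    have ha2 := ca2_le hR hz.1
    have hb2 := ca2_le hR hz.2
    have t1 : ca R z.1 * ca2 R z.2 * d.p z ^ 2 ≤ 8 / R ^ 2 * M ^ 2 := by
      calc ca R z.1 * ca2 R z.2 * d.p z ^ 2 ≤ |ca R z.1 * ca2 R z.2 * d.p z ^ 2| := le_abs_self _
        _ = ca R z.1 * |ca2 R z.2| * d.p z ^ 2 := by
            rw [abs_mul, abs_mul, abs_of_nonneg ha0, abs_of_nonneg (sq_nonneg (d.p z))]
        _ ≤ 1 * (8 / R ^ 2) * M ^ 2 := by
            apply mul_le_mul _ hp2 (sq_nonneg _) (by positivity)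
            exact mul_le_mul ha hb2 (abs_nonneg _) zero_le_one
        _ = 8 / R ^ 2 * M ^ 2 := by ring
    have t2 : ca2 R z.1 * ca R z.2 * d.q z ^ 2 ≤ 8 / R ^ 2 * M ^ 2 := by
      calc ca2 R z.1 * ca R z.2 * d.q z ^ 2 ≤ |ca2 R z.1 * ca R z.2 * d.q z ^ 2| := le_abs_self _
        _ = |ca2 R z.1| * ca R z.2 * d.q z ^ 2 := by
            rw [abs_mul, abs_mul, abs_of_nonneg hb0, abs_of_nonneg (sq_nonneg (d.q z))]
        _ ≤ (8 / R ^ 2) * 1 * M ^ 2 := by
            apply mul_le_mul _ hq2 (sq_nonneg _) (by positivity)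
            exact mul_le_mul ha2 hb hb0 (by positivity)
        _ = 8 / R ^ 2 * M ^ 2 := by ring
    have t3 : -(ca1 R z.1 * ca1 R z.2 * (d.p z * d.q z)) ≤ 16 / R ^ 2 * M ^ 2 := by
      calc -(ca1 R z.1 * ca1 R z.2 * (d.p z * d.q z))
          ≤ |ca1 R z.1 * ca1 R z.2 * (d.p z * d.q z)| := neg_le_abs _
        _ = |ca1 R z.1| * |ca1 R z.2| * |d.p z * d.q z| := by
            rw [abs_mul, abs_mul]
        _ ≤ (4 / R) * (4 / R) * M ^ 2 := by
            apply mul_le_mul _ hpq (abs_nonneg _) (by positivity)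
            exact mul_le_mul ha1 hb1 (abs_nonneg _) (by positivity)
        _ = 16 / R ^ 2 * M ^ 2 := by ring
    have : 24 * M ^ 2 / R ^ 2 = 1 / 2 * (8 / R ^ 2 * M ^ 2) + 1 / 2 * (8 / R ^ 2 * M ^ 2)
        + 16 / R ^ 2 * M ^ 2 := by ring
    rw [this]
    linarith


/-! ### the step function -/

noncomputable def ph (t : ℝ) : ℝ := Real.smoothTransition (2 * t)

lemma ph_contDiff : ContDiff ℝ 1 ph := by
  unfold ph
  exact Real.smoothTransition.contDiff.comp (by fun_prop)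

lemma ph_nonneg (t : ℝ) : 0 ≤ ph t := Real.smoothTransition.nonneg _
lemma ph_le_one (t : ℝ) : ph t ≤ 1 := Real.smoothTransition.le_one _
lemma ph_zero {t : ℝ} (ht : t ≤ 0) : ph t = 0 :=
  Real.smoothTransition.zero_of_nonpos (by linarith)
lemma ph_one {t : ℝ} (ht : 1 / 2 ≤ t) : ph t = 1 :=
  Real.smoothTransition.one_of_one_le (by linarith)

lemma ph_hasDerivAt (t : ℝ) : HasDerivAt ph (deriv ph t) t :=
  (ph_contDiff.differentiable one_ne_zero t).hasDerivAt

lemma ph_deriv_continuous : Continuous (deriv ph) := ph_contDiff.continuous_deriv le_rfl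

lemma ph_deriv_zero {t : ℝ} (ht : t ≤ 0 ∨ 1 / 2 ≤ t) : deriv ph t = 0 := by
  rcases ht with ht | ht
  · apply IsLocalMin.deriv_eq_zero
    apply Filter.Eventually.of_forall
    intro u
    rw [ph_zero ht]
    exact ph_nonneg u
  · apply IsLocalMax.deriv_eq_zero
    apply Filter.Eventually.of_forall
    intro u
    show ph u ≤ ph t
    rw [ph_one ht]
    exact ph_le_one u

lemma ph_deriv_bound : ∃ L : ℝ, 0 ≤ L ∧ ∀ t, |deriv ph t| ≤ L := by
  obtain ⟨L, hL⟩ := (isCompact_Icc (a := (0 : ℝ)) (b := 1 / 2)).exists_bound_of_continuousOn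
    ph_deriv_continuous.continuousOn
  refine ⟨max L 0, le_max_right _ _, fun t => ?_⟩
  by_cases h : t ∈ Icc (0 : ℝ) (1 / 2)
  · exact (hL t h).trans (le_max_left _ _)
  · rw [ph_deriv_zero, abs_zero]
    · exact le_max_right _ _
    · by_contra hcon
      push Not at hcon
      exact h ⟨hcon.1.le, hcon.2.le⟩


lemma smul_cont {R : ℝ} : Continuous (cz R) := by
  unfold cz
  exact (continuous_ca.comp continuous_fst).mul (continuous_ca.comp continuous_snd)

lemma cz_nonneg (R : ℝ) (z : ℝ × ℝ) : 0 ≤ cz R z := mul_nonneg (ca_nonneg _ _) (ca_nonneg _ _)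

lemma cz_le_one {R : ℝ} (hR : 0 < R) {z : ℝ × ℝ} (hz : z ∈ sq R) : cz R z ≤ 1 := by
  unfold cz
  calc ca R z.1 * ca R z.2 ≤ 1 * 1 :=
        mul_le_mul (ca_le hR hz.1) (ca_le hR hz.2) (ca_nonneg _ _) zero_le_one
    _ = 1 := one_mul 1

/-- The data used in the curvature estimate. `P, Q` is the vector field `∇f / W` with
`∂ₓ P = PX`, `∂ᵧ Q = QY`, `PX + QY` is twice the mean curvature, `k` is the sum of the absolute
values of the principal curvatures, `tau = (PX + QY) / k`, `Ka` is minus the Gaussian curvature,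
`gT` is the intrinsic length of the gradient of `tau` and `W` the area factor. -/
structure Flux (R c : ℝ) where
  P : ℝ × ℝ → ℝ
  Q : ℝ × ℝ → ℝ
  PX : ℝ × ℝ → ℝ
  QY : ℝ × ℝ → ℝ
  tau : ℝ × ℝ → ℝ
  tX : ℝ × ℝ → ℝ
  tY : ℝ × ℝ → ℝ
  gT : ℝ × ℝ → ℝ
  k : ℝ × ℝ → ℝ
  Ka : ℝ × ℝ → ℝ
  W : ℝ × ℝ → ℝ
  cP : ContinuousOn P (sq R)
  cQ : ContinuousOn Q (sq R)
  cPX : ContinuousOn PX (sq R)
  cQY : ContinuousOn QY (sq R)
  ctau : ContinuousOn tau (sq R)
  ctX : ContinuousOn tX (sq R)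
  ctY : ContinuousOn tY (sq R)
  cgT : ContinuousOn gT (sq R)
  cKa : ContinuousOn Ka (sq R)
  cW : ContinuousOn W (sq R)
  hP : ∀ z ∈ sq R, HasDerivAt (fun a => P (a, z.2)) (PX z) z.1
  hQ : ∀ z ∈ sq R, HasDerivAt (fun b => Q (z.1, b)) (QY z) z.2
  htX : ∀ z ∈ sq R, HasDerivAt (fun a => tau (a, z.2)) (tX z) z.1
  htY : ∀ z ∈ sq R, HasDerivAt (fun b => tau (z.1, b)) (tY z) z.2
  P1 : ∀ z ∈ sq R, |P z| ≤ 1
  Q1 : ∀ z ∈ sq R, |Q z| ≤ 1
  W1 : ∀ z ∈ sq R, 1 ≤ W z
  hc : ∀ z ∈ sq R, c ≤ k z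
  hH : ∀ z ∈ sq R, PX z + QY z = tau z * k z
  hK : ∀ z ∈ sq R, 4 * Ka z = k z ^ 2 * (1 - tau z ^ 2)
  hK0 : ∀ z ∈ sq R, 0 ≤ Ka z
  hG : ∀ z ∈ sq R, |tX z * P z + tY z * Q z| ≤ gT z * W z

/-- the opposite orientation -/
def Flux.neg {R c : ℝ} (d : Flux R c) : Flux R c where
  P := fun z => -d.P z
  Q := fun z => -d.Q z
  PX := fun z => -d.PX z
  QY := fun z => -d.QY z
  tau := fun z => -d.tau z
  tX := fun z => -d.tX z
  tY := fun z => -d.tY z
  gT := d.gT
  k := d.k
  Ka := d.Ka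
  W := d.W
  cP := d.cP.neg
  cQ := d.cQ.neg
  cPX := d.cPX.neg
  cQY := d.cQY.neg
  ctau := d.ctau.neg
  ctX := d.ctX.neg
  ctY := d.ctY.neg
  cgT := d.cgT
  cKa := d.cKa
  cW := d.cW
  hP := fun z hz => (d.hP z hz).neg
  hQ := fun z hz => (d.hQ z hz).neg
  htX := fun z hz => (d.htX z hz).neg
  htY := fun z hz => (d.htY z hz).neg
  P1 := fun z hz => by rw [abs_neg]; exact d.P1 z hz
  Q1 := fun z hz => by rw [abs_neg]; exact d.Q1 z hz
  W1 := d.W1
  hc := d.hc
  hH := fun z hz => by have := d.hH z hz; linarith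
  hK := fun z hz => by rw [neg_sq]; exact d.hK z hz
  hK0 := d.hK0
  hG := fun z hz => by
    have := d.hG z hz
    rwa [neg_mul_neg, neg_mul_neg]

namespace Flux

variable {R c : ℝ}

/-- the transition zone -/
def zone (d : Flux R c) : Set (ℝ × ℝ) := {z | z ∈ sq R ∧ |d.tau z| < 1 / 2}

lemma zone_subset (d : Flux R c) : d.zone ⊆ sq R := fun _ hz => hz.1

lemma zone_measurable (d : Flux R c) : MeasurableSet d.zone := by
  obtain ⟨u, hu, hus⟩ := (continuousOn_iff'.1 d.ctau) (Ioo (-(1 / 2)) (1 / 2)) isOpen_Ioo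
  have h : d.zone = u ∩ sq R := by
    rw [← hus]
    ext z
    simp only [zone, mem_ofPred_eq, mem_inter_iff, mem_preimage, mem_Ioo, abs_lt]
    tauto
  rw [h]
  exact hu.measurableSet.inter (measurableSet_sq R)

/-- the variation of `tau` in the transition zone -/
noncomputable def vari (d : Flux R c) : ℝ := ∫ z in d.zone, d.gT z * d.W z

lemma neg_vari (d : Flux R c) : d.neg.vari = d.vari := by
  have h : d.neg.zone = d.zone := by
    ext z
    show z ∈ sq R ∧ |-d.tau z| < 1 / 2 ↔ z ∈ sq R ∧ |d.tau z| < 1 / 2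
    rw [abs_neg]
  unfold vari
  rw [h]
  rfl

/-- the flux inequality -/
lemma flux (d : Flux R c) {L : ℝ} (hR : 0 < R)
    (hL0 : 0 ≤ L) (hL : ∀ t, |deriv ph t| ≤ L) :
    ∫ z in sq R, cz R z * (ph (d.tau z) * (d.PX z + d.QY z)) ≤ 32 * R + L * d.vari := by
  have cP := d.cP
  have cQ := d.cQ
  have cPX := d.cPX
  have cQY := d.cQY
  have ctau := d.ctau
  have ctX := d.ctX
  have ctY := d.ctY
  have cgT := d.cgT
  have cKa := d.cKa
  have cW := d.cW
  have cph : ContinuousOn (fun z => ph (d.tau z)) (sq R) :=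
    ph_contDiff.continuous.comp_continuousOn ctau
  have cph1 : ContinuousOn (fun z => deriv ph (d.tau z)) (sq R) :=
    ph_deriv_continuous.comp_continuousOn ctau
  have cA : ContinuousOn (fun z : ℝ × ℝ => ca R z.1) (sq R) := (continuous_ca.comp continuous_fst).continuousOn
  have cB : ContinuousOn (fun z : ℝ × ℝ => ca R z.2) (sq R) := (continuous_ca.comp continuous_snd).continuousOn
  have cA1 : ContinuousOn (fun z : ℝ × ℝ => ca1 R z.1) (sq R) := (continuous_ca1.comp continuous_fst).continuousOn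
  have cB1 : ContinuousOn (fun z : ℝ × ℝ => ca1 R z.2) (sq R) := (continuous_ca1.comp continuous_snd).continuousOn
  have ccz : ContinuousOn (cz R) (sq R) := smul_cont.continuousOn
  have i1 : ∫ z in sq R, (ca1 R z.1 * ca R z.2 * (ph (d.tau z) * d.P z) +
      ca R z.1 * ca R z.2 * (deriv ph (d.tau z) * d.tX z * d.P z + ph (d.tau z) * d.PX z)) = 0 := by
    refine int_px hR (F := fun z => ca R z.1 * ca R z.2 * (ph (d.tau z) * d.P z)) ?_ ?_ ?_ ?_
    · fun_prop
    · intro z hz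
      have e1 := (hasDerivAt_ca hR z.1).mul_const (ca R z.2)
      have e2 : HasDerivAt (fun a => ph (d.tau (a, z.2))) (deriv ph (d.tau z) * d.tX z) z.1 :=
        HasDerivAt.comp (h₂ := ph) (h := fun a => d.tau (a, z.2)) z.1 (ph_hasDerivAt (d.tau z)) (d.htX z hz)
      exact e1.mul (e2.mul (d.hP z hz))
    · intro x _
      simp only [ca_right hR]; ring
    · intro x _
      simp only [ca_left hR]; ring
  have i2 : ∫ z in sq R, (ca R z.1 * ca1 R z.2 * (ph (d.tau z) * d.Q z) +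
      ca R z.1 * ca R z.2 * (deriv ph (d.tau z) * d.tY z * d.Q z + ph (d.tau z) * d.QY z)) = 0 := by
    refine int_py hR (F := fun z => ca R z.1 * ca R z.2 * (ph (d.tau z) * d.Q z)) ?_ ?_ ?_ ?_
    · fun_prop
    · intro z hz
      have e1 := (hasDerivAt_ca hR z.2).const_mul (ca R z.1)
      have e2 : HasDerivAt (fun b => ph (d.tau (z.1, b))) (deriv ph (d.tau z) * d.tY z) z.2 :=
        HasDerivAt.comp (h₂ := ph) (h := fun b => d.tau (z.1, b)) z.2 (ph_hasDerivAt (d.tau z)) (d.htY z hz)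
      exact e1.mul (e2.mul (d.hQ z hz))
    · intro x _
      simp only [ca_right hR]; ring
    · intro x _
      simp only [ca_left hR]; ring
  have j1 : IntegrableOn (fun z : ℝ × ℝ => (ca1 R z.1 * ca R z.2 * (ph (d.tau z) * d.P z) +
      ca R z.1 * ca R z.2 * (deriv ph (d.tau z) * d.tX z * d.P z + ph (d.tau z) * d.PX z))) (sq R) := by
    apply integrableOn_sq; fun_prop
  have j2 : IntegrableOn (fun z : ℝ × ℝ => (ca R z.1 * ca1 R z.2 * (ph (d.tau z) * d.Q z) +
      ca R z.1 * ca R z.2 * (deriv ph (d.tau z) * d.tY z * d.Q z + ph (d.tau z) * d.QY z))) (sq R) := by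
    apply integrableOn_sq; fun_prop
  have j3 : IntegrableOn (fun z : ℝ × ℝ => cz R z * (ph (d.tau z) * (d.PX z + d.QY z))) (sq R) := by
    apply integrableOn_sq; fun_prop
  have j5 : IntegrableOn (fun z : ℝ × ℝ => d.gT z * d.W z) (sq R) := by
    apply integrableOn_sq; fun_prop
  have j5' : IntegrableOn (d.zone.indicator fun z : ℝ × ℝ => d.gT z * d.W z) (sq R) :=
    j5.indicator d.zone_measurable
  have j6 : IntegrableOn (fun _ : ℝ × ℝ => 8 / R) (sq R) := by
    apply integrableOn_sq; fun_prop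
  have j4 : IntegrableOn (fun z : ℝ × ℝ => 8 / R +
      L * (d.zone.indicator (fun z : ℝ × ℝ => d.gT z * d.W z) z)) (sq R) :=
    j6.add (j5'.const_mul _)
  have key : ∫ z in sq R, cz R z * (ph (d.tau z) * (d.PX z + d.QY z)) =
      ∫ z in sq R, (cz R z * (ph (d.tau z) * (d.PX z + d.QY z)) -
      (ca1 R z.1 * ca R z.2 * (ph (d.tau z) * d.P z) +
      ca R z.1 * ca R z.2 * (deriv ph (d.tau z) * d.tX z * d.P z + ph (d.tau z) * d.PX z)) -
      (ca R z.1 * ca1 R z.2 * (ph (d.tau z) * d.Q z) +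
      ca R z.1 * ca R z.2 * (deriv ph (d.tau z) * d.tY z * d.Q z + ph (d.tau z) * d.QY z))) := by
    have j31 : IntegrableOn (fun z : ℝ × ℝ => cz R z * (ph (d.tau z) * (d.PX z + d.QY z)) -
      (ca1 R z.1 * ca R z.2 * (ph (d.tau z) * d.P z) +
      ca R z.1 * ca R z.2 * (deriv ph (d.tau z) * d.tX z * d.P z + ph (d.tau z) * d.PX z))) (sq R) :=
      j3.sub j1
    rw [integral_sub j31 j2, integral_sub j3 j1, i1, i2, sub_zero, sub_zero]
  have hle : ∫ z in sq R, cz R z * (ph (d.tau z) * (d.PX z + d.QY z)) ≤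
      ∫ z in sq R, (8 / R + L * (d.zone.indicator (fun z : ℝ × ℝ => d.gT z * d.W z) z)) := by
    rw [key]
    refine setIntegral_mono_on ((j3.sub j1).sub j2) j4 (measurableSet_sq R) ?_
    intro z hz
    have ha := ca_le hR hz.1
    have hb := ca_le hR hz.2
    have ha0 := ca_nonneg R z.1
    have hb0 := ca_nonneg R z.2
    have ha1 := ca1_le hR hz.1
    have hb1 := ca1_le hR hz.2
    have hph0 := ph_nonneg (d.tau z)
    have hph1 := ph_le_one (d.tau z)
    have hpz := d.P1 z hz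
    have hqz := d.Q1 z hz
    have hW1 := d.W1 z hz
    have t1 : -(ca1 R z.1 * ca R z.2 * (ph (d.tau z) * d.P z)) ≤ 4 / R := by
      calc -(ca1 R z.1 * ca R z.2 * (ph (d.tau z) * d.P z))
          ≤ |ca1 R z.1 * ca R z.2 * (ph (d.tau z) * d.P z)| := neg_le_abs _
        _ = (|ca1 R z.1| * ca R z.2) * (ph (d.tau z) * |d.P z|) := by
            rw [abs_mul, abs_mul, abs_mul, abs_of_nonneg hb0, abs_of_nonneg hph0]
        _ ≤ (4 / R * 1) * (1 * 1) := by
            apply mul_le_mul _ _ (by positivity) (by positivity)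
            · exact mul_le_mul ha1 hb hb0 (by positivity)
            · exact mul_le_mul hph1 hpz (abs_nonneg _) zero_le_one
        _ = 4 / R := by ring
    have t2 : -(ca R z.1 * ca1 R z.2 * (ph (d.tau z) * d.Q z)) ≤ 4 / R := by
      calc -(ca R z.1 * ca1 R z.2 * (ph (d.tau z) * d.Q z))
          ≤ |ca R z.1 * ca1 R z.2 * (ph (d.tau z) * d.Q z)| := neg_le_abs _
        _ = (ca R z.1 * |ca1 R z.2|) * (ph (d.tau z) * |d.Q z|) := by
            rw [abs_mul, abs_mul, abs_mul, abs_of_nonneg ha0, abs_of_nonneg hph0]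
        _ ≤ (1 * (4 / R)) * (1 * 1) := by
            apply mul_le_mul _ _ (by positivity) (by positivity)
            · exact mul_le_mul ha hb1 (abs_nonneg _) zero_le_one
            · exact mul_le_mul hph1 hqz (abs_nonneg _) zero_le_one
        _ = 4 / R := by ring
    have hgW : 0 ≤ d.gT z * d.W z := (abs_nonneg _).trans (d.hG z hz)
    have t3 : |deriv ph (d.tau z) * (d.tX z * d.P z + d.tY z * d.Q z)| ≤
        L * (d.zone.indicator (fun z : ℝ × ℝ => d.gT z * d.W z) z) := by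
      by_cases hne : deriv ph (d.tau z) = 0
      · rw [hne, zero_mul, abs_zero]
        apply mul_nonneg hL0
        by_cases hz2 : z ∈ d.zone
        · rw [indicator_of_mem hz2]; exact hgW
        · rw [indicator_of_notMem hz2]
      · have h0 : 0 < d.tau z := by
          by_contra h
          exact hne (ph_deriv_zero (Or.inl (not_lt.1 h)))
        have h1 : d.tau z < 1 / 2 := by
          by_contra h
          exact hne (ph_deriv_zero (Or.inr (not_lt.1 h)))
        have hz2 : z ∈ d.zone := ⟨hz, by rw [abs_of_pos h0]; exact h1⟩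
        rw [indicator_of_mem hz2, abs_mul]
        exact mul_le_mul (hL _) (d.hG z hz) (abs_nonneg _) hL0
    have t4 : -(ca R z.1 * ca R z.2 * (deriv ph (d.tau z) * (d.tX z * d.P z + d.tY z * d.Q z))) ≤
        L * (d.zone.indicator (fun z : ℝ × ℝ => d.gT z * d.W z) z) := by
      calc -(ca R z.1 * ca R z.2 * (deriv ph (d.tau z) * (d.tX z * d.P z + d.tY z * d.Q z)))
          ≤ |ca R z.1 * ca R z.2 * (deriv ph (d.tau z) * (d.tX z * d.P z + d.tY z * d.Q z))| :=
            neg_le_abs _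
        _ = (ca R z.1 * ca R z.2) * |deriv ph (d.tau z) * (d.tX z * d.P z + d.tY z * d.Q z)| := by
            rw [abs_mul, abs_of_nonneg (mul_nonneg ha0 hb0)]
        _ ≤ 1 * |deriv ph (d.tau z) * (d.tX z * d.P z + d.tY z * d.Q z)| := by
            apply mul_le_mul_of_nonneg_right _ (abs_nonneg _)
            exact cz_le_one hR hz
        _ = |deriv ph (d.tau z) * (d.tX z * d.P z + d.tY z * d.Q z)| := one_mul _
        _ ≤ _ := t3
    have hfin : 8 / R = 4 / R + 4 / R := by ring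
    rw [hfin]
    unfold cz
    linarith
  refine hle.trans ?_
  rw [integral_add j6 (j5'.const_mul _), vol_sq hR, integral_const_mul,
    setIntegral_indicator d.zone_measurable, inter_eq_right.2 d.zone_subset]
  have e1 : 4 * R ^ 2 * (8 / R) = 32 * R := by field_simp; ring
  rw [e1]
  rfl

lemma pointwise (d : Flux R c) (hc : 0 < c) {z : ℝ × ℝ} (hz : z ∈ sq R) :
    c / 2 - 8 / (3 * c) * (d.Ka z * d.W z) ≤
      ph (d.tau z) * (d.PX z + d.QY z) + ph (d.neg.tau z) * (d.neg.PX z + d.neg.QY z) := by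
  have e0 : d.neg.tau z = -d.tau z := rfl
  have e1 : d.neg.PX z + d.neg.QY z = -(d.PX z + d.QY z) := by
    show -d.PX z + -d.QY z = _
    ring
  rw [e0, e1, d.hH z hz]
  have hk := d.hc z hz
  have hkp : 0 < d.k z := lt_of_lt_of_le hc hk
  have hK0 := d.hK0 z hz
  have hW := d.W1 z hz
  have hKW : d.Ka z ≤ d.Ka z * d.W z := by nlinarith
  have hcD : 0 ≤ 8 / (3 * c) * (d.Ka z * d.W z) := by positivity
  rcases le_or_gt (1 / 2) (d.tau z) with h | h
  · rw [ph_one h, ph_zero (by linarith)]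
    nlinarith
  rcases le_or_gt (1 / 2) (-d.tau z) with h' | h'
  · rw [ph_one h', ph_zero (by linarith : d.tau z ≤ 0)]
    nlinarith
  have h1 : d.tau z ^ 2 ≤ 1 / 4 := by nlinarith
  have h2 : c ^ 2 ≤ d.k z ^ 2 := pow_le_pow_left₀ hc.le hk 2
  have h3 := d.hK z hz
  have h4 : 3 / 16 * c ^ 2 ≤ d.Ka z := by
    nlinarith [mul_nonneg (sq_nonneg (d.k z)) (by linarith : (0 : ℝ) ≤ 1 / 4 - d.tau z ^ 2)]
  have h5 : c / 2 ≤ 8 / (3 * c) * (d.Ka z * d.W z) := by
    have e : c / 2 = 8 / (3 * c) * (3 / 16 * c ^ 2) := by field_simp; norm_num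
    rw [e]
    exact mul_le_mul_of_nonneg_left (h4.trans hKW) (by positivity)
  have h6 : 0 ≤ ph (d.tau z) * (d.tau z * d.k z) := by
    rcases le_or_gt (d.tau z) 0 with h | h
    · rw [ph_zero h, zero_mul]
    · exact mul_nonneg (ph_nonneg _) (by positivity)
  have h7 : 0 ≤ ph (-d.tau z) * -(d.tau z * d.k z) := by
    rcases le_or_gt (-d.tau z) 0 with h | h
    · rw [ph_zero h, zero_mul]
    · refine mul_nonneg (ph_nonneg _) ?_
      rw [← neg_mul]; positivity
  linarith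

/-- the a priori estimate -/
lemma estimate (d : Flux R c) {L : ℝ} (hR : 0 < R) (hc : 0 < c)
    (hL0 : 0 ≤ L) (hL : ∀ t, |deriv ph t| ≤ L) :
    c ^ 2 * R ^ 2 ≤ 128 * (c * R) + 4 * L * (c * d.vari) +
      16 / 3 * ∫ z in sq R, cz R z * (d.Ka z * d.W z) := by
  have f1 := d.flux hR hL0 hL
  have f2 := d.neg.flux hR hL0 hL
  have cPX := d.cPX
  have cQY := d.cQY
  have cPX' := d.neg.cPX
  have cQY' := d.neg.cQY
  have cKa := d.cKa
  have cW := d.cW
  have cph : ContinuousOn (fun z => ph (d.tau z)) (sq R) :=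
    ph_contDiff.continuous.comp_continuousOn d.ctau
  have cph' : ContinuousOn (fun z => ph (d.neg.tau z)) (sq R) :=
    ph_contDiff.continuous.comp_continuousOn d.neg.ctau
  have ccz : ContinuousOn (cz R) (sq R) := smul_cont.continuousOn
  have j1 : IntegrableOn (fun z : ℝ × ℝ => cz R z * (ph (d.tau z) * (d.PX z + d.QY z))) (sq R) := by
    apply integrableOn_sq; fun_prop
  have j2 : IntegrableOn (fun z : ℝ × ℝ => cz R z * (ph (d.neg.tau z) * (d.neg.PX z + d.neg.QY z)))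
      (sq R) := by
    apply integrableOn_sq; fun_prop
  have j3 : IntegrableOn (fun z : ℝ × ℝ => cz R z * (d.Ka z * d.W z)) (sq R) := by
    apply integrableOn_sq; fun_prop
  have j4 : IntegrableOn (fun z : ℝ × ℝ => cz R z) (sq R) := integrableOn_sq ccz
  have main : c / 2 * (∫ z in sq R, cz R z) ≤
      (∫ z in sq R, cz R z * (ph (d.tau z) * (d.PX z + d.QY z))) +
      (∫ z in sq R, cz R z * (ph (d.neg.tau z) * (d.neg.PX z + d.neg.QY z))) +
      8 / (3 * c) * ∫ z in sq R, cz R z * (d.Ka z * d.W z) := by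
    rw [← integral_const_mul, ← integral_const_mul, ← integral_add j1 j2]
    have j12 : IntegrableOn (fun z : ℝ × ℝ => cz R z * (ph (d.tau z) * (d.PX z + d.QY z)) +
      cz R z * (ph (d.neg.tau z) * (d.neg.PX z + d.neg.QY z))) (sq R) := j1.add j2
    rw [← integral_add j12 (j3.const_mul _)]
    refine setIntegral_mono_on (j4.const_mul _) (j12.add (j3.const_mul _)) (measurableSet_sq R) ?_
    intro z hz
    have hpw := d.pointwise hc hz
    have h1 := mul_le_mul_of_nonneg_left hpw (cz_nonneg R z)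
    have e1 : cz R z * (c / 2 - 8 / (3 * c) * (d.Ka z * d.W z)) =
      c / 2 * cz R z - 8 / (3 * c) * (cz R z * (d.Ka z * d.W z)) := by ring
    rw [e1] at h1
    have e2 : cz R z * (ph (d.tau z) * (d.PX z + d.QY z) + ph (d.neg.tau z) * (d.neg.PX z + d.neg.QY z))
      = cz R z * (ph (d.tau z) * (d.PX z + d.QY z)) +
        cz R z * (ph (d.neg.tau z) * (d.neg.PX z + d.neg.QY z)) := by ring
    rw [e2] at h1
    linarith
  have hI := int_cz hR
  rw [d.neg_vari] at f2
  set TC := ∫ z in sq R, cz R z * (d.Ka z * d.W z) with hTC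
  have h1 : c / 2 * R ^ 2 ≤ 2 * (32 * R + L * d.vari) + 8 / (3 * c) * TC := by
    have : c / 2 * R ^ 2 ≤ c / 2 * ∫ z in sq R, cz R z :=
      mul_le_mul_of_nonneg_left hI (by positivity)
    linarith
  have h2 : c ^ 2 * R ^ 2 ≤ 2 * c * (2 * (32 * R + L * d.vari) + 8 / (3 * c) * TC) := by
    have e : c ^ 2 * R ^ 2 = 2 * c * (c / 2 * R ^ 2) := by ring
    rw [e]
    exact mul_le_mul_of_nonneg_left h1 (by positivity)
  refine h2.trans (le_of_eq ?_)
  field_simp
  ring

lemma gW_nonneg (d : Flux R c) {z : ℝ × ℝ} (hz : z ∈ sq R) : 0 ≤ d.gT z * d.W z :=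
  (abs_nonneg _).trans (d.hG z hz)

lemma gT_nonneg (d : Flux R c) {z : ℝ × ℝ} (hz : z ∈ sq R) : 0 ≤ d.gT z := by
  have h1 := d.gW_nonneg hz
  have h2 := d.W1 z hz
  by_contra h
  push Not at h
  nlinarith [mul_neg_of_neg_of_pos h (by linarith : (0 : ℝ) < d.W z)]

lemma vari_nonneg (d : Flux R c) : 0 ≤ d.vari :=
  setIntegral_nonneg d.zone_measurable fun _ hz => d.gW_nonneg hz.1

lemma zone_bound (d : Flux R c) {z : ℝ × ℝ} (hz : z ∈ d.zone) : 3 * d.k z ^ 2 ≤ 16 * d.Ka z := by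
  have hKk := d.hK z hz.1
  have h1 := abs_lt.1 hz.2
  have : d.tau z ^ 2 ≤ 1 / 4 := by nlinarith
  nlinarith [mul_nonneg (sq_nonneg (d.k z)) (by linarith : (0 : ℝ) ≤ 1 / 4 - d.tau z ^ 2)]

lemma int_zone_le (d : Flux R c) :
    ∫ z in d.zone, d.Ka z * d.W z ≤ ∫ z in sq R, d.Ka z * d.W z := by
  have cKa := d.cKa
  have cW := d.cW
  refine setIntegral_mono_set ?_ ?_ (LE.le.eventuallyLE d.zone_subset)
  · apply integrableOn_sq; fun_prop
  · rw [Filter.EventuallyLE, ae_restrict_iff' (measurableSet_sq R)]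
    exact Filter.Eventually.of_forall fun z hz =>
      mul_nonneg (d.hK0 z hz) (by have := d.W1 z hz; linarith)

lemma vari_le_of_bound (d : Flux R c) {G : ℝ} (hG : 0 ≤ G)
    (h : ∀ z ∈ d.zone, d.gT z ≤ G * d.k z ^ 2) :
    d.vari ≤ 16 / 3 * G * ∫ z in sq R, d.Ka z * d.W z := by
  have cKa := d.cKa
  have cW := d.cW
  have cgT := d.cgT
  have i1 : IntegrableOn (fun z => d.gT z * d.W z) d.zone := by
    refine IntegrableOn.mono_set ?_ d.zone_subset
    apply integrableOn_sq; fun_prop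
  have i2 : IntegrableOn (fun z => d.Ka z * d.W z) d.zone := by
    refine IntegrableOn.mono_set ?_ d.zone_subset
    apply integrableOn_sq; fun_prop
  have h1 : d.vari ≤ ∫ z in d.zone, 16 / 3 * G * (d.Ka z * d.W z) := by
    refine setIntegral_mono_on i1 (i2.const_mul _) d.zone_measurable ?_
    intro z hz
    have hW := d.W1 z hz.1
    have h2 := h z hz
    have h3 := d.zone_bound hz
    have h4 : G * d.k z ^ 2 ≤ G * (16 / 3 * d.Ka z) := by
      apply mul_le_mul_of_nonneg_left _ hG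
      linarith
    calc d.gT z * d.W z ≤ (G * (16 / 3 * d.Ka z)) * d.W z :=
          mul_le_mul_of_nonneg_right (h2.trans h4) (by linarith)
      _ = 16 / 3 * G * (d.Ka z * d.W z) := by ring
  rw [integral_const_mul] at h1
  refine h1.trans ?_
  exact mul_le_mul_of_nonneg_left d.int_zone_le (by positivity)

lemma vari_sq_le (d : Flux R c) (hc : 0 < c) :
    d.vari ^ 2 ≤ (16 / (3 * c ^ 2) * ∫ z in sq R, d.Ka z * d.W z) *
      ∫ z in d.zone, d.gT z ^ 2 * d.W z := by
  have cKa := d.cKa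
  have cW := d.cW
  have cgT := d.cgT
  have i1 : IntegrableOn (fun z => d.gT z * d.W z) d.zone := by
    refine IntegrableOn.mono_set ?_ d.zone_subset
    apply integrableOn_sq; fun_prop
  have i2 : IntegrableOn (fun z => d.Ka z * d.W z) d.zone := by
    refine IntegrableOn.mono_set ?_ d.zone_subset
    apply integrableOn_sq; fun_prop
  have i3 : IntegrableOn (fun z => d.gT z ^ 2 * d.W z) d.zone := by
    refine IntegrableOn.mono_set ?_ d.zone_subset
    apply integrableOn_sq; fun_prop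
  set TC := ∫ z in sq R, d.Ka z * d.W z with hTC
  set E := ∫ z in d.zone, d.gT z ^ 2 * d.W z with hE
  have hE0 : 0 ≤ E := setIntegral_nonneg d.zone_measurable fun z hz =>
    mul_nonneg (sq_nonneg _) (by have := d.W1 z hz.1; linarith)
  have hV0 := d.vari_nonneg
  have hTC0 : 0 ≤ TC := setIntegral_nonneg (measurableSet_sq R) fun z hz =>
    mul_nonneg (d.hK0 z hz) (by have := d.W1 z hz; linarith)
  have key : ∀ x : ℝ, 0 ≤ (16 / (3 * c ^ 2) * TC) * (x * x) + (-2 * d.vari) * x + E := by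
    intro x
    rcases le_or_gt x 0 with hx | hx
    · have h1 : 0 ≤ (-2 * d.vari) * x := by nlinarith
      have h2 : 0 ≤ (16 / (3 * c ^ 2) * TC) * (x * x) := by
        have := mul_self_nonneg x
        positivity
      linarith
    · have h1 : 2 * x * d.vari ≤ ∫ z in d.zone,
          (x ^ 2 * (16 / (3 * c ^ 2)) * (d.Ka z * d.W z) + d.gT z ^ 2 * d.W z) := by
        unfold vari
        rw [← integral_const_mul]
        refine setIntegral_mono_on (i1.const_mul _) ((i2.const_mul _).add i3) d.zone_measurable ?_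
        intro z hz
        have hW := d.W1 z hz.1
        have h3 := d.zone_bound hz
        have h4 : c ^ 2 ≤ d.k z ^ 2 := pow_le_pow_left₀ hc.le (d.hc z hz.1) 2
        have h5 : 1 ≤ 16 / (3 * c ^ 2) * d.Ka z := by
          rw [div_mul_eq_mul_div, le_div_iff₀ (by positivity)]
          linarith
        have h6 : 2 * x * d.gT z ≤ x ^ 2 + d.gT z ^ 2 := by nlinarith [sq_nonneg (x - d.gT z)]
        have h7 : x ^ 2 ≤ x ^ 2 * (16 / (3 * c ^ 2) * d.Ka z) :=
          le_mul_of_one_le_right (sq_nonneg x) h5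
        calc 2 * x * (d.gT z * d.W z) = (2 * x * d.gT z) * d.W z := by ring
          _ ≤ (x ^ 2 * (16 / (3 * c ^ 2) * d.Ka z) + d.gT z ^ 2) * d.W z :=
              mul_le_mul_of_nonneg_right (by linarith) (by linarith)
          _ = _ := by ring
      rw [integral_add (i2.const_mul _) i3, integral_const_mul] at h1
      have h2 : x ^ 2 * (16 / (3 * c ^ 2)) * (∫ z in d.zone, d.Ka z * d.W z) ≤
          x ^ 2 * (16 / (3 * c ^ 2)) * TC :=
        mul_le_mul_of_nonneg_left d.int_zone_le (by positivity)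
      nlinarith
  have hd := discrim_le_zero key
  unfold discrim at hd
  nlinarith

lemma int_cz_le (d : Flux R c) (hR : 0 < R) :
    ∫ z in sq R, cz R z * (d.Ka z * d.W z) ≤ ∫ z in sq R, d.Ka z * d.W z := by
  have cKa := d.cKa
  have cW := d.cW
  have ccz : ContinuousOn (cz R) (sq R) := smul_cont.continuousOn
  refine setIntegral_mono_on ?_ ?_ (measurableSet_sq R) ?_
  · apply integrableOn_sq; fun_prop
  · apply integrableOn_sq; fun_prop
  · intro z hz
    have h1 : 0 ≤ d.Ka z * d.W z := mul_nonneg (d.hK0 z hz) (by have := d.W1 z hz; linarith)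
    calc cz R z * (d.Ka z * d.W z) ≤ 1 * (d.Ka z * d.W z) :=
          mul_le_mul_of_nonneg_right (cz_le_one hR hz) h1
      _ = d.Ka z * d.W z := one_mul _

end Flux


end Pool.Agent.Helper49.Mil
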